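import Pool.Agent.Y308.AK.Fin

/-!
# Affine phases: `n_K(k) ≤ 11` for every number `k ≥ 2` of phases

Question Q2 of the problem: the affine `k`-phase problem in the plane. Already for two phases, and
for every number `k ≥ 2` of pairwise different phases, the `G`-closure and the lamination closure
differ for fields with eleven potentials.

The definitions are in `Pool/Agent/Y308/AK/Defs.lean`. That every partition of positive definite
phases has an effective tensor is `Pool.Agent.Y308.AK.exists_effA`.
-/

set_option autoImplicit false

namespace Pool.Agent.Results.MP_2a9317_an.AffineUpperBound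

open Pool.Agent.Y308.AK

/-- For every number `k ≥ 2` of phases one has `n_K(k) ≤ 11`; more precisely there are `k` pairwise
different symmetric positive definite phases on `S_11 ⊕ ℝ` and an element of their `G`-closure which
is not in their lamination closure. -/
theorem result (k : ℕ) (hk : 2 ≤ k) : nK k ≤ 11 ∧
    ∃ K : Fin k → ATens 11, Function.Injective K ∧ (∀ i, (K i).PosDef) ∧
      ∃ Ks : ATens 11, Ks ∈ GA K ∧ Ks ∉ GLA K :=
  ⟨nK_le k hk, k_phase_gapA k hk⟩

end Pool.Agent.Results.MP_2a9317_an.AffineUpperBound
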